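import Pool.Agent.H95.FH.Defs

/-!
# Crew FH: parts GOPEN and GRO
-/

set_option autoImplicit false

open MvPolynomial Topology Filter

namespace H88.FH

open H95.FG H95.FH

theorem dt_comm {n : ℕ} (z Y : Fin n → ℂ) : dt z Y = dt Y z := by
  unfold dt; exact Finset.sum_congr rfl fun k _ => mul_comm _ _

theorem dt_smul_right {n : ℕ} (z Y : Fin n → ℂ) (c : ℂ) : dt z (c • Y) = c * dt z Y := by
  unfold dt
  rw [Finset.mul_sum]
  refine Finset.sum_congr rfl fun k _ => ?_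
  simp only [Pi.smul_apply, smul_eq_mul]; ring

theorem dt_sub_right {n : ℕ} (z Y Y' : Fin n → ℂ) : dt z (Y - Y') = dt z Y - dt z Y' := by
  unfold dt
  rw [← Finset.sum_sub_distrib]
  refine Finset.sum_congr rfl fun k _ => ?_
  simp only [Pi.sub_apply]; ring

theorem cont_dt : Continuous (fun q : (Fin 3 → ℂ) × (Fin 3 → ℂ) => dt q.1 q.2) := by
  unfold dt
  fun_prop

theorem cont_ev {m : ℕ} (p : P3 m) : Continuous (fun z : Fin 3 → ℂ => ev p z) := by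
  refine continuous_pi fun j => ?_
  exact MvPolynomial.continuous_eval (p j)

theorem cont_AA (A : Q3) : Continuous (fun q : (Fin 3 → ℂ) × (Fin 3 → ℂ) => AA A q.1 q.2) := by
  unfold AA
  refine (MvPolynomial.continuous_eval A).comp ?_
  refine continuous_pi fun i => ?_
  rcases i with i | i
  · simp only [Sum.elim_inl]; fun_prop
  · simp only [Sum.elim_inr]; fun_prop

theorem cont_AA' (A : Q3) : Continuous (fun q : (Fin 3 → ℂ) × (Fin 3 → ℂ) => AA A q.2 q.1) := by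
  unfold AA
  refine (MvPolynomial.continuous_eval A).comp ?_
  refine continuous_pi fun i => ?_
  rcases i with i | i
  · simp only [Sum.elim_inl]; fun_prop
  · simp only [Sum.elim_inr]; fun_prop

/-- a nonzero vector has a vector with nonzero product -/
theorem exists_dt {z : Fin 3 → ℂ} (hz : z ≠ 0) : ∃ h : Fin 3 → ℂ, dt z h ≠ 0 := by
  obtain ⟨k, hk⟩ := Function.ne_iff.1 hz
  refine ⟨Pi.single k 1, ?_⟩
  unfold dt
  rw [Finset.sum_eq_single k]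
  · simpa using hk
  · intro b _ hb
    simp [Pi.single_apply, hb]
  · simp

/-- moving a nonzero value along -/
theorem ev_move (F : (Fin 3 → ℂ) × (Fin 3 → ℂ) → ℂ) (hF : Continuous F) (z0 Y0 : Fin 3 → ℂ)
    (hz0 : z0 ≠ 0) (h1 : dt z0 Y0 = 0) (h2 : F (z0, Y0) ≠ 0) :
    ∀ᶠ z in 𝓝 z0, ∃ Y, dt z Y = 0 ∧ F (z, Y) ≠ 0 := by
  obtain ⟨h, hh⟩ := exists_dt hz0
  have c1 : ContinuousAt (fun z : Fin 3 → ℂ => dt z h) z0 :=
    (cont_dt.comp (continuous_id.prodMk continuous_const)).continuousAt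
  have c2 : ContinuousAt (fun z : Fin 3 → ℂ => dt z Y0) z0 :=
    (cont_dt.comp (continuous_id.prodMk continuous_const)).continuousAt
  have c3 : ContinuousAt (fun z : Fin 3 → ℂ => (z, Y0 - (dt z Y0 / dt z h) • h)) z0 :=
    continuousAt_id.prodMk (continuousAt_const.sub ((c2.div c1 hh).smul continuousAt_const))
  have c4 : ContinuousAt (fun z : Fin 3 → ℂ => F (z, Y0 - (dt z Y0 / dt z h) • h)) z0 :=
    ContinuousAt.comp (f := fun z : Fin 3 → ℂ => (z, Y0 - (dt z Y0 / dt z h) • h)) (g := F)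
      hF.continuousAt c3
  have e0 : F (z0, Y0 - (dt z0 Y0 / dt z0 h) • h) ≠ 0 := by
    rw [h1, zero_div, zero_smul, sub_zero]; exact h2
  filter_upwards [c1.eventually_ne hh, c4.eventually_ne e0] with z hz1 hz2
  refine ⟨_, ?_, hz2⟩
  rw [dt_sub_right, dt_smul_right, div_mul_cancel₀ _ hz1, sub_self]

theorem norm_scale {Y : Fin 3 → ℂ} (hY : Y ≠ 0) :
    ((‖Y‖⁻¹ : ℝ) : ℂ) • Y ∈ Metric.sphere (0 : Fin 3 → ℂ) 1 := by
  rw [mem_sphere_zero_iff_norm, norm_smul, Complex.norm_real, norm_inv, norm_norm,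
    inv_mul_cancel₀ (norm_ne_zero_iff.2 hY)]

theorem ball_of_eventually {P : (Fin 3 → ℂ) → Prop} {z0 : Fin 3 → ℂ}
    (h : ∀ᶠ z in 𝓝 z0, P z) : ∃ ε > 0, ∀ z, ‖z - z0‖ < ε → P z := by
  obtain ⟨ε, hε, hb⟩ := Metric.eventually_nhds_iff.1 h
  exact ⟨ε, hε, fun z hz => hb (by rwa [dist_eq_norm])⟩

theorem good_ne {m d : ℕ} {p : P3 m} {A : Q3} (hB : S_BAS) (hc : Ctx m d p A) {z : Fin 3 → ℂ}
    (h : ev p z ≠ 0) : z ≠ 0 := by
  intro hz
  apply h
  have := (hB m d p A hc).2.1 0 z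
  rw [zero_smul, zero_pow (by omega), zero_smul] at this
  rw [hz]
  exact this

theorem gopen_ev (hB : S_BAS) (m d : ℕ) (p : P3 m) (A : Q3) (hc : Ctx m d p A)
    (z0 : Fin 3 → ℂ) (h0 : Good p A z0) : ∀ᶠ z in 𝓝 z0, Good p A z := by
  obtain ⟨g1, g2, Y0, g3, g4⟩ := h0
  have hz0 : z0 ≠ 0 := good_ne hB hc g1
  have E1 : ∀ᶠ z in 𝓝 z0, ev p z ≠ 0 := (cont_ev p).continuousAt.eventually_ne g1
  have E2 : ∀ᶠ z in 𝓝 z0, ∀ Y ∈ Metric.sphere (0 : Fin 3 → ℂ) 1,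
      dt z Y = 0 → ev (cp p) Y ≠ 0 := by
    refine (isCompact_sphere (0 : Fin 3 → ℂ) 1).eventually_forall_of_forall_eventually ?_
    intro Y hY
    by_cases hd : dt z0 Y = 0
    · have hY0 : Y ≠ 0 := by
        intro h
        rw [h, mem_sphere_zero_iff_norm, norm_zero] at hY
        exact zero_ne_one hY
      have h1 := g2 Y hY0 hd
      have h2 : ∀ᶠ q : (Fin 3 → ℂ) × (Fin 3 → ℂ) in 𝓝 (z0, Y), ev (cp p) q.2 ≠ 0 :=
        ((cont_ev (cp p)).comp continuous_snd).continuousAt.eventually_ne h1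
      exact h2.mono fun q hq _ => hq
    · have h2 : ∀ᶠ q : (Fin 3 → ℂ) × (Fin 3 → ℂ) in 𝓝 (z0, Y), dt q.1 q.2 ≠ 0 :=
        cont_dt.continuousAt.eventually_ne hd
      exact h2.mono fun q hq h => absurd h hq
  have E3 := ev_move (fun q => AA A q.1 q.2) (cont_AA A) z0 Y0 hz0 g3 g4
  filter_upwards [E1, E2, E3] with z e1 e2 e3
  refine ⟨e1, ?_, e3⟩
  intro Y hY hd hev
  refine e2 _ (norm_scale hY) ?_ ?_
  · rw [dt_smul_right, hd, mul_zero]
  · rw [(hB m d p A hc).2.2.1, hev, smul_zero]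

theorem t_GOPEN (hB : S_BAS) : S_GOPEN := by
  intro m d p A hc z0 h0
  exact ball_of_eventually (gopen_ev hB m d p A hc z0 h0)

theorem t_GRO (hG : S_GOPEN) (hB : S_BAS) : S_GRO := by
  intro m d p A hc z0 h0
  obtain ⟨h0, h1⟩ := h0
  obtain ⟨ε, hε, hG'⟩ := hG m d p A hc z0 h0
  have E1 : ∀ᶠ z in 𝓝 z0, Good p A z := by
    rw [Metric.eventually_nhds_iff]
    exact ⟨ε, hε, fun z hz => hG' z (by rwa [← dist_eq_norm])⟩
  have E2 : ∀ᶠ z in 𝓝 z0, ∀ Y ∈ Metric.sphere (0 : Fin 3 → ℂ) 1,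
      dt z Y = 0 → ∃ z', dt z' Y = 0 ∧ AA A z' Y ≠ 0 := by
    refine (isCompact_sphere (0 : Fin 3 → ℂ) 1).eventually_forall_of_forall_eventually ?_
    intro Y hY
    by_cases hd : dt z0 Y = 0
    · have hY0 : Y ≠ 0 := by
        intro h
        rw [h, mem_sphere_zero_iff_norm, norm_zero] at hY
        exact zero_ne_one hY
      obtain ⟨z', h2, h3⟩ := h1 Y hY0 hd
      have h4 : ∀ᶠ z in 𝓝 Y, ∃ w, dt z w = 0 ∧ AA A w z ≠ 0 :=
        ev_move (fun q => AA A q.2 q.1) (cont_AA' A) Y z' hY0 (by rw [dt_comm]; exact h2) h3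
      have h5 : ∀ᶠ q : (Fin 3 → ℂ) × (Fin 3 → ℂ) in 𝓝 (z0, Y),
          ∃ w, dt q.2 w = 0 ∧ AA A w q.2 ≠ 0 :=
        (continuous_snd.tendsto (z0, Y)).eventually h4
      refine h5.mono fun q hq _ => ?_
      obtain ⟨w, hw1, hw2⟩ := hq
      exact ⟨w, by rw [dt_comm]; exact hw1, hw2⟩
    · have h2 : ∀ᶠ q : (Fin 3 → ℂ) × (Fin 3 → ℂ) in 𝓝 (z0, Y), dt q.1 q.2 ≠ 0 :=
        cont_dt.continuousAt.eventually_ne hd
      exact h2.mono fun q hq h => absurd h hq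
  refine ball_of_eventually ?_
  filter_upwards [E1, E2] with z e1 e2
  refine ⟨e1, ?_⟩
  intro Y hY hd
  obtain ⟨z', h2, h3⟩ := e2 _ (norm_scale hY) (by rw [dt_smul_right, hd, mul_zero])
  refine ⟨z', ?_, ?_⟩
  · rw [dt_smul_right] at h2
    have : ((‖Y‖⁻¹ : ℝ) : ℂ) ≠ 0 := by
      simpa using hY
    exact (mul_eq_zero.1 h2).resolve_left this
  · rw [(hB m d p A hc).2.2.2.2.1] at h3
    exact right_ne_zero_of_mul h3

end H88.FH
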